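import Pool.Agent.Helper1.DW.FinalStep
import Pool.Agent.Helper15.DW.Field

/-!
# Assembly: recurrence of the real dynamics gives the hypothesis of the last step
-/

set_option autoImplicit false
open Filter Topology

namespace Pool.Agent.Helper1.DW
open Pool.Agent.DW

/-- the base point -/
noncomputable def basePt : Fin 2 → Fin 2 → ℂ := fun i => ![1, ((xR.2 i : ℝ) : ℂ)]

lemma basePt_mem : basePt ∈ Om := by
  intro i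
  simp [basePt]

theorem assemble
    (hdiff : DifferentiableOn ℂ (GG dl LL SS) Om)
    (hprops : Set.MapsTo (GG dl LL SS) Om Om ∧ ∀ x ∈ Om, GG dl LL SS x ≠ x)
    (hconj : ∀ (G : (Fin 2 → Fin 2 → ℂ) → (Fin 2 → Fin 2 → ℂ))
      (_ : DifferentiableOn ℂ G Om) (_ : Set.MapsTo G Om Om) (_ : ∀ x ∈ Om, G x ≠ x)
      (x0 : Fin 2 → Fin 2 → ℂ) (_ : x0 ∈ Om) (C : ℝ)
      (_ : ∀ i, ∃ᶠ m : ℕ in atTop,
        1 ≤ ((G^[m] x0) i 0).re - 2 * ((G^[m] x0) i 1).im ^ 2 ∧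
        ‖(G^[m] x0) i 0‖ ≤ C ∧ ‖(G^[m] x0) i 1‖ ≤ C),
      ∃ F : (Fin 2 → Fin 2 → ℂ) → (Fin 2 → Fin 2 → ℂ),
        DifferentiableOn ℂ F (Set.univ.pi fun _ => D0) ∧
        Set.MapsTo F (Set.univ.pi fun _ => D0) (Set.univ.pi fun _ => D0) ∧
        (∀ z ∈ (Set.univ.pi fun _ => D0 : Set (Fin 2 → Fin 2 → ℂ)), F z ≠ z) ∧
        ∃ z0 ∈ (Set.univ.pi fun _ => D0 : Set (Fin 2 → Fin 2 → ℂ)), ∃ η > 0, ∀ i : Fin 2,
          ∃ᶠ m : ℕ in atTop, ‖(F^[m] z0) i 0‖ ^ 2 + ‖(F^[m] z0) i 1‖ ^ 2 ≤ 1 - η)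
    (hreal : ∀ t : ℕ, ∃ μ : Fin 2 → ℝ, (∀ i, 1 ≤ μ i) ∧ μ 0 + μ 1 = (stepR^[t] xR).1 ∧
      ∀ i, ((GG dl LL SS)^[t] (fun i => ![1, ((xR.2 i : ℝ) : ℂ)])) i 0 = (μ i : ℂ) ∧
        ((GG dl LL SS)^[t] (fun i => ![1, ((xR.2 i : ℝ) : ℂ)])) i 1
          = (((stepR^[t] xR).2 i : ℝ) : ℂ))
    (C : ℝ) (hm : ∀ t : ℕ, (stepR^[t] xR).1 ≤ C)
    (hW : ∀ i, ∃ᶠ t : ℕ in atTop, |(stepR^[t] xR).2 i| ≤ C) :
    ¬ (∀ (ℓ : ℕ) (N : Fin ℓ → ℕ) (D : ∀ j : Fin ℓ, Set (Fin (N j) → ℂ)),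
      (∀ j, 0 < N j) → 2 ≤ ∑ j, N j →
      (∀ j, IsOpen (D j) ∧ (D j).Nonempty ∧ Bornology.IsBounded (D j) ∧ Convex ℝ (D j)) →
      (∀ j, ∀ f : (Fin (N j) → ℂ) → (Fin (N j) → ℂ),
          DifferentiableOn ℂ f (D j) → Set.MapsTo f (D j) (D j) →
          (∀ z ∈ D j, f z ≠ z) →
          ∃ p ∈ frontier (D j), ∀ z ∈ D j,
            Tendsto (fun m : ℕ => f^[m] z) atTop (𝓝 p)) →
      ∀ F : (∀ j : Fin ℓ, Fin (N j) → ℂ) → (∀ j : Fin ℓ, Fin (N j) → ℂ),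
        DifferentiableOn ℂ F (Set.univ.pi D) →
        Set.MapsTo F (Set.univ.pi D) (Set.univ.pi D) →
        (∀ z ∈ Set.univ.pi D, F z ≠ z) →
        ∃ j₀ : Fin ℓ, ∃ p ∈ frontier (D j₀), ∀ z ∈ Set.univ.pi D,
          Tendsto (fun m : ℕ => (F^[m] z) j₀) atTop (𝓝 p)) := by
  apply final_step
  apply hconj (GG dl LL SS) hdiff hprops.1 hprops.2 basePt basePt_mem C
  intro i
  refine (hW i).mono (fun t ht => ?_)
  obtain ⟨μ, hμ1, hμs, hμ⟩ := hreal t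
  obtain ⟨h0, h1⟩ := hμ i
  have e0 : ((GG dl LL SS)^[t] basePt) i 0 = (μ i : ℂ) := h0
  have e1 : ((GG dl LL SS)^[t] basePt) i 1 = (((stepR^[t] xR).2 i : ℝ) : ℂ) := h1
  rw [e0, e1]
  have hle : μ i ≤ C := by
    have h2 := hm t
    have h3 := hμ1 0
    have h4 := hμ1 1
    rw [← hμs] at h2
    fin_cases i
    · simp only [Fin.zero_eta]; linarith
    · simp only [Fin.mk_one]; linarith
  refine ⟨?_, ?_, ?_⟩
  · simp only [Complex.ofReal_re, Complex.ofReal_im]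
    have := hμ1 i
    linarith
  · rw [Complex.norm_real, Real.norm_eq_abs, abs_of_nonneg (by linarith [hμ1 i])]
    exact hle
  · rw [Complex.norm_real, Real.norm_eq_abs]
    exact ht

end Pool.Agent.Helper1.DW
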