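import Pool.Agent.Helper1.DW.Calka

/-!
# The Denjoy–Wolff property of the euclidean unit ball of `Fin n → ℂ`
-/

set_option autoImplicit false
open Metric Set Filter Topology

namespace Pool.Agent.Helper1.DW

/-- The euclidean unit ball, as a subset of `Fin n → ℂ` (sum form). -/
def ballN (n : ℕ) : Set (Fin n → ℂ) := {z | ∑ i, ‖z i‖ ^ 2 < 1}

/-- The coordinates map. -/
noncomputable abbrev toE (n : ℕ) : (Fin n → ℂ) ≃L[ℂ] EuclideanSpace ℂ (Fin n) :=
  (EuclideanSpace.equiv (Fin n) ℂ).symm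

lemma norm_toE_sq {n : ℕ} (z : Fin n → ℂ) : ‖toE n z‖ ^ 2 = ∑ i, ‖z i‖ ^ 2 := by
  rw [EuclideanSpace.norm_sq_eq]
  rfl

lemma mem_ballN_iff {n : ℕ} (z : Fin n → ℂ) : z ∈ ballN n ↔ toE n z ∈ ball (0 : EuclideanSpace ℂ (Fin n)) 1 := by
  rw [mem_ball_zero_iff, ballN, mem_ofPred_eq, ← norm_toE_sq]
  constructor
  · intro h
    by_contra hcon
    push Not at hcon
    nlinarith
  · intro h
    nlinarith [norm_nonneg (toE n z)]

lemma ballN_eq_preimage (n : ℕ) : ballN n = toE n ⁻¹' ball 0 1 := by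
  ext z; exact mem_ballN_iff z

lemma isOpen_ballN (n : ℕ) : IsOpen (ballN n) := by
  rw [ballN_eq_preimage]
  exact isOpen_ball.preimage (toE n).continuous

lemma nonempty_ballN (n : ℕ) : (ballN n).Nonempty := ⟨0, by simp [ballN]⟩

lemma isBounded_ballN (n : ℕ) : Bornology.IsBounded (ballN n) := by
  rw [isBounded_iff_forall_norm_le]
  refine ⟨1, fun z hz => ?_⟩
  rw [pi_norm_le_iff_of_nonneg zero_le_one]
  intro i
  have h1 : ‖z i‖ ^ 2 ≤ ∑ i, ‖z i‖ ^ 2 :=
    Finset.single_le_sum (f := fun i => ‖z i‖ ^ 2) (fun _ _ => by positivity) (Finset.mem_univ i)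
  have h2 : ∑ i, ‖z i‖ ^ 2 < 1 := hz
  nlinarith [norm_nonneg (z i)]

lemma convex_ballN (n : ℕ) : Convex ℝ (ballN n) := by
  rw [ballN_eq_preimage]
  exact (convex_ball _ _).linear_preimage ((toE n).toLinearEquiv.toLinearMap.restrictScalars ℝ)

/-- **Denjoy–Wolff property of the euclidean ball of `ℂⁿ`**, in the form used by the frozen
statement. -/
theorem denjoyWolff_ballN (n : ℕ) (f : (Fin n → ℂ) → (Fin n → ℂ))
    (hf : DifferentiableOn ℂ f (ballN n)) (hm : MapsTo f (ballN n) (ballN n))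
    (hfix : ∀ z ∈ ballN n, f z ≠ z) :
    ∃ p ∈ frontier (ballN n), ∀ z ∈ ballN n, Tendsto (fun m : ℕ => f^[m] z) atTop (𝓝 p) := by
  set e := toE n with he
  set g : EuclideanSpace ℂ (Fin n) → EuclideanSpace ℂ (Fin n) := fun w => e (f (e.symm w)) with hg
  have hsymm : MapsTo e.symm (ball (0 : EuclideanSpace ℂ (Fin n)) 1) (ballN n) := by
    intro w hw
    rw [mem_ballN_iff]
    simpa [he] using hw
  have hgd : DifferentiableOn ℂ g (ball (0 : EuclideanSpace ℂ (Fin n)) 1) := by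
    have h1 : DifferentiableOn ℂ (fun w => f (e.symm w)) (ball (0 : EuclideanSpace ℂ (Fin n)) 1) :=
      hf.comp e.symm.differentiable.differentiableOn hsymm
    exact e.differentiable.comp_differentiableOn h1
  have hgm : MapsTo g (ball (0 : EuclideanSpace ℂ (Fin n)) 1) (ball (0 : EuclideanSpace ℂ (Fin n)) 1) := by
    intro w hw
    exact (mem_ballN_iff _).mp (hm (hsymm hw))
  have hgfix : ∀ w : EuclideanSpace ℂ (Fin n), ‖w‖ < 1 → g w ≠ w := by
    intro w hw hcon
    apply hfix (e.symm w) (hsymm (by simpa using hw))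
    apply e.injective
    rw [e.apply_symm_apply]
    exact hcon
  obtain ⟨p, hp, hlim⟩ := denjoyWolff_ball hgd hgm hgfix
  have hiter : ∀ (m : ℕ) (z : Fin n → ℂ), g^[m] (e z) = e (f^[m] z) := by
    intro m z
    induction m with
    | zero => rfl
    | succ m ih =>
      rw [Function.iterate_succ_apply', ih, Function.iterate_succ_apply', hg]
      simp only [e.symm_apply_apply]
  refine ⟨e.symm p, ?_, ?_⟩
  · have h1 : ballN n = e ⁻¹' ball 0 1 := ballN_eq_preimage n
    have h2 : frontier (ballN n) = e ⁻¹' frontier (ball 0 1) := by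
      rw [h1]
      exact (e.toHomeomorph.preimage_frontier _).symm
    rw [h2, mem_preimage, e.apply_symm_apply, frontier_ball _ one_ne_zero]
    simpa using hp
  · intro z hz
    have h0 : ‖e z‖ < 1 := mem_ball_zero_iff.mp ((mem_ballN_iff z).mp hz)
    have h1 := hlim (e z) h0
    have h2 := (e.symm.continuous.tendsto p).comp h1
    refine h2.congr (fun m => ?_)
    rw [Function.comp, hiter, e.symm_apply_apply]

/-- The ball of `ℂ²`. -/
def ball2 : Set (Fin 2 → ℂ) := {z | ‖z 0‖ ^ 2 + ‖z 1‖ ^ 2 < 1}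

lemma ball2_eq : ball2 = ballN 2 := by
  ext z
  simp [ball2, ballN, Fin.sum_univ_two]

theorem denjoyWolff_ball2 (f : (Fin 2 → ℂ) → (Fin 2 → ℂ))
    (hf : DifferentiableOn ℂ f ball2) (hm : MapsTo f ball2 ball2)
    (hfix : ∀ z ∈ ball2, f z ≠ z) :
    ∃ p ∈ frontier ball2, ∀ z ∈ ball2, Tendsto (fun m : ℕ => f^[m] z) atTop (𝓝 p) := by
  rw [ball2_eq] at *
  exact denjoyWolff_ballN 2 f hf hm hfix

end Pool.Agent.Helper1.DW
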