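import Pool.Agent.Helper1.DW.Wolff

/-!
# Calka's theorem and the Denjoy–Wolff theorem for the unit ball
-/

set_option autoImplicit false
open Metric Set Filter Topology

namespace Pool.Agent.Helper1.DW

variable {E : Type*} [NormedAddCommGroup E] [InnerProductSpace ℂ E]

/-- A recurrent orbit is relatively compact in the open ball. -/
lemma orbit_bounded [ProperSpace E] {f : E → E} (hf : DifferentiableOn ℂ f (ball (0 : E) 1))
    (hm : MapsTo f (ball (0 : E) 1) (ball (0 : E) 1)) {y : E} (hy : ‖y‖ < 1)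
    {p : ℕ → ℕ} (hp : ∀ k, k < p k) (hlim : Tendsto (fun k => f^[p k] y) atTop (𝓝 y)) :
    ∃ r < 1, ∀ n, ‖f^[n] y‖ ≤ r := by
  have hiso := Q_orbit_eq hf hm hy hp hlim
  have hiso' : ∀ i j, i ≤ j → Q (f^[i] y) (f^[j] y) = Q y (f^[j - i] y) := by
    intro i j hij
    have := hiso 0 (j - i) i
    have e : j - i + i = j := by omega
    rw [zero_add, e] at this
    simpa using this
  set S : Set ℕ := {n | 1 ≤ n ∧ Q y (f^[n] y) < 2} with hS
  have hSunb : ∀ m, ∃ n ∈ S, m ≤ n := by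
    intro m
    have h1 : Tendsto (fun k => Q y (f^[p k] y)) atTop (𝓝 1) := by
      have := tendsto_Q hy hy (tendsto_const_nhds) hlim
      rwa [Q_self hy] at this
    have h2 := h1.eventually (gt_mem_nhds (by norm_num : (1 : ℝ) < 2))
    obtain ⟨k, hk, hkm⟩ := (h2.and (eventually_ge_atTop m)).exists
    exact ⟨p k, ⟨by have := hp k; omega, hk⟩, by have := hp k; omega⟩
  -- the points with `n ∈ S` stay in a compact subset
  obtain ⟨r1, hr1, hr1b⟩ : ∃ r1 < 1, ∀ n ∈ S, ‖f^[n] y‖ ≤ r1 := by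
    have hpos : 0 < (1 - ‖y‖) ^ 2 / 2 := by
      have : 0 < 1 - ‖y‖ := by linarith
      positivity
    refine ⟨Real.sqrt (1 - (1 - ‖y‖) ^ 2 / 2), ?_, ?_⟩
    · rw [Real.sqrt_lt' one_pos]
      linarith
    · intro n hn
      apply Real.le_sqrt_of_sq_le
      have := norm_bound_of_Q_le hy le_rfl (iterate_norm_lt hm hy n) hn.2.le
      linarith
  set A : Set E := (fun n => f^[n] y) '' S with hA
  have hAc : IsCompact (closure A) := by
    apply (isCompact_closedBall (0 : E) r1).closure_of_subset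
    rintro _ ⟨n, hn, rfl⟩
    simpa using hr1b n hn
  have hAb : ∀ c ∈ closure A, ‖c‖ < 1 := by
    intro c hc
    have : closure A ⊆ closedBall (0 : E) r1 := by
      apply closure_minimal _ isClosed_closedBall
      rintro _ ⟨n, hn, rfl⟩
      simpa using hr1b n hn
    have h := this hc
    have h' : ‖c‖ ≤ r1 := by simpa using h
    linarith
  -- finite subcover
  have hex : ∀ c ∈ closure A, ∃ j ∈ S, Q (f^[j] y) c < 2 := by
    intro c hc
    have hc1 := hAb c hc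
    have h1 : Tendsto (fun w => Q w c) (𝓝 c) (𝓝 1) := by
      have := tendsto_Q hc1 hc1 (tendsto_id (x := 𝓝 c)) (tendsto_const_nhds (x := c))
      rwa [Q_self hc1] at this
    have h2 := h1.eventually (gt_mem_nhds (by norm_num : (1 : ℝ) < 2))
    obtain ⟨w, hw, n, hn, rfl⟩ := (mem_closure_iff_nhds.mp hc) _ h2
    exact ⟨n, hn, hw⟩
  choose! j hjS hjQ using hex
  have hnhds : ∀ c ∈ closure A, {z : E | Q (f^[j c] y) z < 2} ∈ 𝓝 c := by
    intro c hc
    have h1 := (continuousOn_Q (iterate_norm_lt hm hy (j c))).continuousAt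
      (isOpen_ball.mem_nhds (by simpa using hAb c hc : c ∈ ball (0 : E) 1))
    exact h1.eventually (gt_mem_nhds (hjQ c hc))
  obtain ⟨t, ht, hcov⟩ := hAc.elim_nhds_subcover _ hnhds
  -- bound for the indices
  set N := t.sup j with hN
  have hNb : ∀ n ∈ S, ∃ i ∈ S, i ≤ N ∧ Q (f^[i] y) (f^[n] y) < 2 := by
    intro n hn
    have h1 : f^[n] y ∈ closure A := subset_closure ⟨n, hn, rfl⟩
    have h2 := hcov h1
    simp only [mem_iUnion] at h2
    obtain ⟨c, hct, hc⟩ := h2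
    exact ⟨j c, hjS c (ht c hct), Finset.le_sup hct, hc⟩
  have hsyn : ∀ m, ∃ s ∈ S, m ≤ s ∧ s ≤ m + N := by
    intro m
    classical
    have hex : ∃ n, n ∈ S ∧ m ≤ n := by
      obtain ⟨n, hn, hmn⟩ := hSunb m
      exact ⟨n, hn, hmn⟩
    obtain ⟨hs1, hs2⟩ := Nat.find_spec hex
    refine ⟨Nat.find hex, hs1, hs2, ?_⟩
    by_contra hcon
    push Not at hcon
    obtain ⟨i, hiS, hiN, hiQ⟩ := hNb _ hs1
    have h1 : i ≤ Nat.find hex := by omega
    rw [hiso' i _ h1] at hiQ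
    have h2 : Nat.find hex - i ∈ S ∧ m ≤ Nat.find hex - i := ⟨⟨by omega, hiQ⟩, by omega⟩
    have h3 := Nat.find_min' hex h2
    have h4 : 1 ≤ i := hiS.1
    omega
  obtain ⟨C, hC⟩ : ∃ C : ℝ, ∀ i ≤ N, Q y (f^[i] y) ≤ C := by
    refine ⟨∑ i ∈ Finset.range (N + 1), Q y (f^[i] y), ?_⟩
    intro i hi
    exact Finset.single_le_sum (f := fun i => Q y (f^[i] y))
      (fun k _ => (Q_pos hy (iterate_norm_lt hm hy k)).le) (Finset.mem_range.mpr (by omega))
  have hCpos : 0 < C := lt_of_lt_of_le (Q_pos hy (iterate_norm_lt hm hy 0)) (hC 0 (Nat.zero_le _))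
  have hr1' : 0 < (1 - r1) ^ 2 / C := by
    have : 0 < 1 - r1 := by linarith
    positivity
  refine ⟨Real.sqrt (1 - (1 - r1) ^ 2 / C), ?_, ?_⟩
  · rw [Real.sqrt_lt' one_pos]
    linarith
  · intro m
    obtain ⟨s, hsS, hms, hsm⟩ := hsyn m
    have h1 : Q (f^[s] y) (f^[m] y) ≤ C := by
      rw [Q_symm, hiso' m s hms]
      exact hC _ (by omega)
    have h2 := norm_bound_of_Q_le hr1 (hr1b s hsS) (iterate_norm_lt hm hy m) h1
    apply Real.le_sqrt_of_sq_le
    have h3 : (1 - r1) ^ 2 / C ≤ 1 - ‖f^[m] y‖ ^ 2 := by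
      rw [div_le_iff₀ hCpos]; linarith
    linarith

/-- A bounded orbit gives a fixed point. -/
lemma exists_fixed_of_orbit_bounded [ProperSpace E] {f : E → E}
    (hf : DifferentiableOn ℂ f (ball (0 : E) 1))
    (hm : MapsTo f (ball (0 : E) 1) (ball (0 : E) 1)) {y : E} {r : ℝ} (hr : r < 1)
    (hb : ∀ n, ‖f^[n] y‖ ≤ r) : ∃ x : E, ‖x‖ < 1 ∧ f x = x := by
  have hr0 : 0 ≤ r := (norm_nonneg _).trans (hb 0)
  have hlt : ∀ n, ‖f^[n] y‖ < 1 := fun n => lt_of_le_of_lt (hb n) hr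
  set R : ℝ := 4 / ((1 - r ^ 2) * (1 - r ^ 2)) with hR
  have h1r : 0 < 1 - r ^ 2 := by nlinarith
  have hRpos : 0 < R := by positivity
  have hQR : ∀ i j, Q (f^[i] y) (f^[j] y) ≤ R := by
    intro i j
    rw [Q_le_iff (hlt i) (hlt j), hR]
    have h1 : 1 - r ^ 2 ≤ 1 - ‖f^[i] y‖ ^ 2 := by
      have := pow_le_pow_left₀ (norm_nonneg _) (hb i) 2; linarith
    have h2 : 1 - r ^ 2 ≤ 1 - ‖f^[j] y‖ ^ 2 := by
      have := pow_le_pow_left₀ (norm_nonneg _) (hb j) 2; linarith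
    have h3 : ‖(1 : ℂ) - inner ℂ (f^[i] y) (f^[j] y)‖ ≤ 2 := by
      refine (norm_sub_le _ _).trans ?_
      have h4 := norm_inner_le_norm (𝕜 := ℂ) (f^[i] y) (f^[j] y)
      have h5 : ‖f^[i] y‖ * ‖f^[j] y‖ ≤ 1 := by
        nlinarith [norm_nonneg (f^[i] y), norm_nonneg (f^[j] y), hlt i, hlt j]
      rw [norm_one]; linarith
    have h6 : ‖(1 : ℂ) - inner ℂ (f^[i] y) (f^[j] y)‖ ^ 2 ≤ 4 := by
      nlinarith [norm_nonneg ((1 : ℂ) - inner ℂ (f^[i] y) (f^[j] y))]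
    have h7 : (1 - r ^ 2) * (1 - r ^ 2) ≤ (1 - ‖f^[i] y‖ ^ 2) * (1 - ‖f^[j] y‖ ^ 2) :=
      mul_le_mul h1 h2 h1r.le (h1r.le.trans h1)
    refine h6.trans ?_
    rw [div_mul_eq_mul_div, le_div_iff₀ (by positivity)]
    linarith
  set Cs : Set E := {w | ‖w‖ < 1 ∧ ∃ N, ∀ n, N ≤ n → Q (f^[n] y) w ≤ R} with hCs
  have hCconv : Convex ℝ Cs := by
    intro u hu v hv s t hs ht hst
    obtain ⟨hu1, N1, hN1⟩ := hu
    obtain ⟨hv1, N2, hN2⟩ := hv
    have hw : ‖s • u + t • v‖ < 1 := by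
      have := (convex_ball (0 : E) 1) (by simpa using hu1 : u ∈ ball (0 : E) 1)
        (by simpa using hv1 : v ∈ ball (0 : E) 1) hs ht hst
      simpa using this
    refine ⟨hw, max N1 N2, fun n hn => ?_⟩
    have := convex_sublevel (hlt n) R (x := u) ⟨hu1, hN1 n (le_trans (le_max_left _ _) hn)⟩
      (y := v) ⟨hv1, hN2 n (le_trans (le_max_right _ _) hn)⟩ hs ht hst
    exact this.2
  have hCne : f^[0] y ∈ Cs := ⟨hlt 0, 0, fun n _ => hQR n 0⟩
  have hCf : MapsTo f Cs Cs := by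
    rintro w ⟨hw, N, hN⟩
    refine ⟨by simpa using hm (by simpa using hw : w ∈ ball (0 : E) 1), N + 1, fun n hn => ?_⟩
    obtain ⟨k, rfl⟩ : ∃ k, n = k + 1 := ⟨n - 1, by omega⟩
    rw [Function.iterate_succ_apply']
    exact (Q_map_le hf hm (hlt k) hw).trans (hN k (by omega))
  obtain ⟨r2, hr2, hCb⟩ : ∃ r2 < 1, ∀ w ∈ Cs, ‖w‖ ≤ r2 := by
    have hpos : 0 < (1 - r) ^ 2 / R := by
      have : 0 < 1 - r := by linarith
      positivity
    refine ⟨Real.sqrt (1 - (1 - r) ^ 2 / R), ?_, ?_⟩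
    · rw [Real.sqrt_lt' one_pos]
      linarith
    · rintro w ⟨hw, N, hN⟩
      have h2 := norm_bound_of_Q_le hr (hb N) hw (hN N le_rfl)
      apply Real.le_sqrt_of_sq_le
      have h3 : (1 - r) ^ 2 / R ≤ 1 - ‖w‖ ^ 2 := by
        rw [div_le_iff₀ hRpos]; linarith
      linarith
  have hclsub : closure Cs ⊆ closedBall (0 : E) r2 := by
    apply closure_minimal _ isClosed_closedBall
    intro w hw
    simpa using hCb w hw
  have hK : IsCompact (closure Cs) :=
    (isCompact_closedBall (0 : E) r2).closure_of_subset (subset_closure.trans hclsub)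
  have hKb : ∀ z ∈ closure Cs, ‖z‖ < 1 := by
    intro z hz
    have : ‖z‖ ≤ r2 := by simpa using hclsub hz
    linarith
  have hcont : ContinuousOn f (closure Cs) :=
    hf.continuousOn.mono (fun z hz => by simpa using hKb z hz)
  have hKf : MapsTo f (closure Cs) (closure Cs) := hCf.closure_of_continuousOn hcont
  obtain ⟨x, hx, hfx⟩ := exists_fixed_of_convex hK ⟨_, subset_closure hCne⟩ hKb hCconv.closure
    hf hm hKf
  exact ⟨x, hKb x hx, hfx⟩

/-- fixed-point free: every orbit tends to the sphere. -/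
lemma tendsto_norm_one [ProperSpace E] {f : E → E} (hf : DifferentiableOn ℂ f (ball (0 : E) 1))
    (hm : MapsTo f (ball (0 : E) 1) (ball (0 : E) 1)) (hfix : ∀ z : E, ‖z‖ < 1 → f z ≠ z)
    {x : E} (hx : ‖x‖ < 1) : Tendsto (fun n => ‖f^[n] x‖) atTop (𝓝 1) := by
  rw [tendsto_order]
  refine ⟨?_, fun b hb => Eventually.of_forall fun n => (iterate_norm_lt hm hx n).trans hb⟩
  intro r hr
  by_contra hcon
  have hfreq : ∃ᶠ n in atTop, ‖f^[n] x‖ ≤ r := by
    have := not_eventually.mp hcon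
    exact this.mono (fun n hn => not_lt.mp hn)
  obtain ⟨φ, hφ, hφb⟩ := extraction_of_frequently_atTop hfreq
  have hr0 : 0 ≤ r := (norm_nonneg _).trans (hφb 0)
  obtain ⟨y, hy, ψ, hψ, hlim⟩ := (isCompact_closedBall (0 : E) r).tendsto_subseq
    (x := fun k => f^[φ k] x) (fun k => by simpa using hφb k)
  have hy1 : ‖y‖ < 1 := by
    have : ‖y‖ ≤ r := by simpa using hy
    linarith
  obtain ⟨p, hp, hplim⟩ := exists_recurrence hf hm hx hy1 (hφ.comp hψ) hlim
  obtain ⟨r', hr', hb⟩ := orbit_bounded hf hm hy1 hp hplim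
  obtain ⟨w, hw, hfw⟩ := exists_fixed_of_orbit_bounded hf hm hr' hb
  exact hfix w hw hfw

/-- **Denjoy–Wolff theorem** for the unit ball of a finite-dimensional complex inner product
space. -/
theorem denjoyWolff_ball [ProperSpace E] {f : E → E}
    (hf : DifferentiableOn ℂ f (ball (0 : E) 1))
    (hm : MapsTo f (ball (0 : E) 1) (ball (0 : E) 1)) (hfix : ∀ z : E, ‖z‖ < 1 → f z ≠ z) :
    ∃ p : E, ‖p‖ = 1 ∧ ∀ z : E, ‖z‖ < 1 → Tendsto (fun n => f^[n] z) atTop (𝓝 p) := by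
  obtain ⟨p, hp, hW⟩ := wolff hf hm hfix
  refine ⟨p, hp, fun z hz => ?_⟩
  set H : E → ℝ := fun w => ‖(1 : ℂ) - inner ℂ p w‖ ^ 2 / (1 - ‖w‖ ^ 2) with hH
  have hHn : ∀ n, H (f^[n] z) ≤ H z := by
    intro n
    induction n with
    | zero => simp
    | succ n ih =>
      rw [Function.iterate_succ_apply']
      exact (hW _ (iterate_norm_lt hm hz n)).trans ih
  have h1 : ∀ n, ‖(1 : ℂ) - inner ℂ p (f^[n] z)‖ ^ 2 ≤ H z * (1 - ‖f^[n] z‖ ^ 2) := by
    intro n
    have h2 := hHn n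
    rw [hH] at h2
    simp only at h2
    rwa [div_le_iff₀ (one_sub_sq_pos (iterate_norm_lt hm hz n))] at h2
  have h2 : Tendsto (fun n => H z * (1 - ‖f^[n] z‖ ^ 2)) atTop (𝓝 0) := by
    have := ((tendsto_norm_one hf hm hfix hz).pow 2).const_sub 1
    have := this.const_mul (H z)
    simpa using this
  have h3 : Tendsto (fun n => ‖(1 : ℂ) - inner ℂ p (f^[n] z)‖) atTop (𝓝 0) := by
    have h4 := (squeeze_zero (fun _ => by positivity) h1 h2).sqrt
    simpa [Real.sqrt_sq (norm_nonneg _)] using h4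
  have h5 : Tendsto (fun n => ‖f^[n] z - p‖ ^ 2) atTop (𝓝 0) := by
    have h6 : Tendsto (fun n => 2 * ‖(1 : ℂ) - inner ℂ p (f^[n] z)‖) atTop (𝓝 0) := by
      simpa using h3.const_mul 2
    apply squeeze_zero (fun _ => by positivity) _ h6
    intro n
    have hn := iterate_norm_lt hm hz n
    have e1 : ‖f^[n] z - p‖ ^ 2 = ‖f^[n] z‖ ^ 2 - 2 * (inner ℂ p (f^[n] z) : ℂ).re + ‖p‖ ^ 2 := by
      rw [norm_sub_sq (𝕜 := ℂ), inner_re_symm]
      rfl
    have e2 : ((1 : ℂ) - inner ℂ p (f^[n] z)).re ≤ ‖(1 : ℂ) - inner ℂ p (f^[n] z)‖ :=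
      Complex.re_le_norm _
    rw [Complex.sub_re, Complex.one_re] at e2
    rw [e1, hp]
    nlinarith [norm_nonneg (f^[n] z)]
  have h7 : Tendsto (fun n => ‖f^[n] z - p‖) atTop (𝓝 0) := by
    have := h5.sqrt
    simpa [Real.sqrt_sq (norm_nonneg _)] using this
  exact tendsto_iff_norm_sub_tendsto_zero.mpr h7

end Pool.Agent.Helper1.DW
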