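import Pool.Agent.Helper1.DW.Ball2
import Pool.Agent.Helper15.DW.Defs

/-!
# The last step: from the self-map of the product of two balls to the frozen statement
-/

set_option autoImplicit false
open Filter Topology

namespace Pool.Agent.Helper1.DW
open Pool.Agent.DW

lemma D0_eq : (D0 : Set (Fin 2 → ℂ)) = ballN 2 := ball2_eq

lemma frontier_D0 {p : Fin 2 → ℂ} (hp : p ∈ frontier D0) : ‖p 0‖ ^ 2 + ‖p 1‖ ^ 2 = 1 := by
  have hcont : Continuous fun z : Fin 2 → ℂ => ‖z 0‖ ^ 2 + ‖z 1‖ ^ 2 := by fun_prop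
  have hopen : IsOpen (D0 : Set (Fin 2 → ℂ)) := by rw [D0_eq]; exact isOpen_ballN 2
  rw [hopen.frontier_eq] at hp
  apply le_antisymm
  · have h1 : closure (D0 : Set (Fin 2 → ℂ)) ⊆ {z | ‖z 0‖ ^ 2 + ‖z 1‖ ^ 2 ≤ 1} := by
      apply closure_minimal
      · intro z hz
        have : ‖z 0‖ ^ 2 + ‖z 1‖ ^ 2 < 1 := hz
        exact this.le
      · exact isClosed_le hcont continuous_const
    exact h1 hp.1
  · by_contra hcon
    push Not at hcon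
    exact hp.2 hcon

theorem final_step
    (h : ∃ F : (Fin 2 → Fin 2 → ℂ) → (Fin 2 → Fin 2 → ℂ),
      DifferentiableOn ℂ F (Set.univ.pi fun _ => D0) ∧
      Set.MapsTo F (Set.univ.pi fun _ => D0) (Set.univ.pi fun _ => D0) ∧
      (∀ z ∈ (Set.univ.pi fun _ => D0 : Set (Fin 2 → Fin 2 → ℂ)), F z ≠ z) ∧
      ∃ z0 ∈ (Set.univ.pi fun _ => D0 : Set (Fin 2 → Fin 2 → ℂ)), ∃ η > 0, ∀ i : Fin 2,
        ∃ᶠ m : ℕ in atTop, ‖(F^[m] z0) i 0‖ ^ 2 + ‖(F^[m] z0) i 1‖ ^ 2 ≤ 1 - η) :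
    ¬ (∀ (ℓ : ℕ) (N : Fin ℓ → ℕ) (D : ∀ j : Fin ℓ, Set (Fin (N j) → ℂ)),
      (∀ j, 0 < N j) → 2 ≤ ∑ j, N j →
      (∀ j, IsOpen (D j) ∧ (D j).Nonempty ∧ Bornology.IsBounded (D j) ∧ Convex ℝ (D j)) →
      (∀ j, ∀ f : (Fin (N j) → ℂ) → (Fin (N j) → ℂ),
          DifferentiableOn ℂ f (D j) → Set.MapsTo f (D j) (D j) →
          (∀ z ∈ D j, f z ≠ z) →
          ∃ p ∈ frontier (D j), ∀ z ∈ D j,
            Tendsto (fun m : ℕ => f^[m] z) atTop (𝓝 p)) →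
      ∀ F : (∀ j : Fin ℓ, Fin (N j) → ℂ) → (∀ j : Fin ℓ, Fin (N j) → ℂ),
        DifferentiableOn ℂ F (Set.univ.pi D) →
        Set.MapsTo F (Set.univ.pi D) (Set.univ.pi D) →
        (∀ z ∈ Set.univ.pi D, F z ≠ z) →
        ∃ j₀ : Fin ℓ, ∃ p ∈ frontier (D j₀), ∀ z ∈ Set.univ.pi D,
          Tendsto (fun m : ℕ => (F^[m] z) j₀) atTop (𝓝 p)) := by
  intro hyp
  obtain ⟨F, hF, hm, hfix, z0, hz0, η, hη, hfreq⟩ := h
  obtain ⟨j, p, hp, hlim⟩ := hyp 2 (fun _ => 2) (fun _ => D0) (fun _ => by norm_num) (by simp)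
    (fun _ => by
      show IsOpen (D0 : Set (Fin 2 → ℂ)) ∧ (D0 : Set (Fin 2 → ℂ)).Nonempty ∧
        Bornology.IsBounded (D0 : Set (Fin 2 → ℂ)) ∧ Convex ℝ (D0 : Set (Fin 2 → ℂ))
      rw [D0_eq]
      exact ⟨isOpen_ballN 2, nonempty_ballN 2, isBounded_ballN 2, convex_ballN 2⟩)
    (fun _ f hf hfm hff => by
      rw [D0_eq] at hf hfm hff ⊢
      exact denjoyWolff_ballN 2 f hf hfm hff) F hF hm hfix
  have h1 := hlim z0 hz0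
  have hcont : Continuous fun z : Fin 2 → ℂ => ‖z 0‖ ^ 2 + ‖z 1‖ ^ 2 := by fun_prop
  have h2 : Tendsto (fun m : ℕ => ‖(F^[m] z0) j 0‖ ^ 2 + ‖(F^[m] z0) j 1‖ ^ 2) atTop
      (𝓝 (‖p 0‖ ^ 2 + ‖p 1‖ ^ 2)) := (hcont.tendsto p).comp h1
  rw [frontier_D0 hp] at h2
  have h3 : ∀ᶠ m : ℕ in atTop, 1 - η < ‖(F^[m] z0) j 0‖ ^ 2 + ‖(F^[m] z0) j 1‖ ^ 2 :=
    h2.eventually (lt_mem_nhds (by linarith))
  obtain ⟨m, hm1, hm2⟩ := ((hfreq j).and_eventually h3).exists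
  linarith

end Pool.Agent.Helper1.DW
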