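import Pool.Agent.Helper1.DW.SchwarzPick

/-!
# Fixed points in the unit ball
-/

set_option autoImplicit false
open Metric Set Filter Topology

namespace Pool.Agent.Helper1.DW

variable {E : Type*} [NormedAddCommGroup E] [InnerProductSpace ℂ E]

/-- the Euclidean distance is controlled by `Q - 1`. -/
lemma norm_sub_sq_le {a z : E} (ha : ‖a‖ < 1) (hz : ‖z‖ < 1) : ‖z - a‖ ^ 2 ≤ Q a z - 1 := by
  have h1 := one_sub_sq_pos ha
  have h2 := one_sub_sq_pos hz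
  set l := (inner ℂ a z : ℂ) with hl
  have e3 : ‖(1 : ℂ) - l‖ ^ 2 = (1 - l.re) ^ 2 + l.im ^ 2 := by
    rw [← Complex.normSq_eq_norm_sq, Complex.normSq_apply]; simp; ring
  have e1 : ‖z - a‖ ^ 2 = ‖z‖ ^ 2 - 2 * l.re + ‖a‖ ^ 2 := by
    rw [norm_sub_sq (𝕜 := ℂ), ← inner_conj_symm z a, ← hl]
    simp
  have key : (1 - ‖a‖ ^ 2) * (1 - ‖z‖ ^ 2) + (1 - ‖a‖ ^ 2) * ‖z - a‖ ^ 2 ≤ ‖(1 : ℂ) - l‖ ^ 2 := by
    rw [e3, e1]
    nlinarith [sq_nonneg (l.re - ‖a‖ ^ 2), sq_nonneg l.im]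
  have hQ : Q a z = ‖(1 : ℂ) - l‖ ^ 2 / ((1 - ‖a‖ ^ 2) * (1 - ‖z‖ ^ 2)) := rfl
  rw [hQ, le_sub_iff_add_le, le_div_iff₀ (mul_pos h1 h2)]
  have h3 : ‖z - a‖ ^ 2 * ((1 - ‖a‖ ^ 2) * (1 - ‖z‖ ^ 2)) ≤ (1 - ‖a‖ ^ 2) * ‖z - a‖ ^ 2 := by
    have h4 : 0 ≤ (1 - ‖a‖ ^ 2) * ‖z - a‖ ^ 2 * ‖z‖ ^ 2 := by positivity
    nlinarith
  linarith

lemma norm_combo_sq {u v : E} {s t : ℝ} (hst : s + t = 1) :
    ‖s • u + t • v‖ ^ 2 = s * ‖u‖ ^ 2 + t * ‖v‖ ^ 2 - s * t * ‖u - v‖ ^ 2 := by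
  let _ : InnerProductSpace ℝ E := InnerProductSpace.complexToReal
  have e1 := norm_add_sq_real (s • u) (t • v)
  have e2 := norm_sub_sq_real u v
  rw [norm_smul, norm_smul, inner_smul_left, inner_smul_right, mul_pow, mul_pow,
    Real.norm_eq_abs, Real.norm_eq_abs, sq_abs, sq_abs] at e1
  rw [e1, e2]
  have ht : t = 1 - s := by linarith
  simp only [conj_trivial]
  rw [ht]
  ring

/-- `Q a z ≤ c` in polynomial form. -/
lemma Q_le_iff {a z : E} (ha : ‖a‖ < 1) (hz : ‖z‖ < 1) {c : ℝ} :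
    Q a z ≤ c ↔ ‖(1 : ℂ) - inner ℂ a z‖ ^ 2 ≤ c * ((1 - ‖a‖ ^ 2) * (1 - ‖z‖ ^ 2)) := by
  unfold Q
  rw [div_le_iff₀ (mul_pos (one_sub_sq_pos ha) (one_sub_sq_pos hz))]

lemma Q_lt_iff {a z : E} (ha : ‖a‖ < 1) (hz : ‖z‖ < 1) {c : ℝ} :
    Q a z < c ↔ ‖(1 : ℂ) - inner ℂ a z‖ ^ 2 < c * ((1 - ‖a‖ ^ 2) * (1 - ‖z‖ ^ 2)) := by
  unfold Q
  rw [div_lt_iff₀ (mul_pos (one_sub_sq_pos ha) (one_sub_sq_pos hz))]

lemma norm_one_sub_inner_combo {a u v : E} {s t : ℝ} (hst : s + t = 1) :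
    ‖(1 : ℂ) - inner ℂ a (s • u + t • v)‖ ^ 2
      = s * ‖(1 : ℂ) - inner ℂ a u‖ ^ 2 + t * ‖(1 : ℂ) - inner ℂ a v‖ ^ 2
        - s * t * ‖(inner ℂ a u : ℂ) - inner ℂ a v‖ ^ 2 := by
  have h1 : (1 : ℂ) - inner ℂ a (s • u + t • v)
      = s • ((1 : ℂ) - inner ℂ a u) + t • ((1 : ℂ) - inner ℂ a v) := by
    rw [inner_add_right, ← Complex.coe_smul s u, ← Complex.coe_smul t v, inner_smul_right,
      inner_smul_right, Complex.real_smul, Complex.real_smul]
    have : (1 : ℂ) = (s : ℂ) + (t : ℂ) := by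
      rw [← Complex.ofReal_add, hst]; simp
    linear_combination this
  rw [h1, norm_combo_sq (E := ℂ) hst]
  congr 3
  rw [← norm_neg]
  congr 1
  ring

/-- the sublevel sets of `Q a` are convex. -/
lemma convex_sublevel {a : E} (ha : ‖a‖ < 1) (c : ℝ) :
    Convex ℝ {z : E | ‖z‖ < 1 ∧ Q a z ≤ c} := by
  intro u hu v hv s t hs ht hst
  have hw : ‖s • u + t • v‖ < 1 := by
    have := (convex_ball (0 : E) 1) (by simpa using hu.1 : u ∈ ball (0 : E) 1)
      (by simpa using hv.1 : v ∈ ball (0 : E) 1) hs ht hst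
    simpa using this
  refine ⟨hw, ?_⟩
  have h1 := (Q_le_iff ha hu.1).mp hu.2
  have h2 := (Q_le_iff ha hv.1).mp hv.2
  have hc : 0 < c := lt_of_lt_of_le (Q_pos ha hu.1) hu.2
  rw [Q_le_iff ha hw, norm_one_sub_inner_combo hst, norm_combo_sq hst]
  have h3 := one_sub_sq_pos ha
  have h4 : 0 ≤ s * t * ‖(inner ℂ a u : ℂ) - inner ℂ a v‖ ^ 2 := by positivity
  have h5 : 0 ≤ c * (1 - ‖a‖ ^ 2) * (s * t * ‖u - v‖ ^ 2) := by positivity
  have h6 := mul_le_mul_of_nonneg_left h1 hs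
  have h7 := mul_le_mul_of_nonneg_left h2 ht
  have ht' : t = 1 - s := by linarith
  have h8 : c * ((1 - ‖a‖ ^ 2) * (1 - (s * ‖u‖ ^ 2 + t * ‖v‖ ^ 2 - s * t * ‖u - v‖ ^ 2)))
      = s * (c * ((1 - ‖a‖ ^ 2) * (1 - ‖u‖ ^ 2))) + t * (c * ((1 - ‖a‖ ^ 2) * (1 - ‖v‖ ^ 2)))
        + c * (1 - ‖a‖ ^ 2) * (s * t * ‖u - v‖ ^ 2) := by
    rw [ht']; ring
  rw [h8]
  linarith

/-- moving from `z` towards `a` strictly decreases `Q a`. -/
lemma Q_seg_lt {a z : E} (ha : ‖a‖ < 1) (hz : ‖z‖ < 1) (hne : a ≠ z) {s t : ℝ} (hs : 0 < s)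
    (ht : 0 ≤ t) (hst : s + t = 1) : Q a (s • a + t • z) < Q a z := by
  have hw : ‖s • a + t • z‖ < 1 := by
    have := (convex_ball (0 : E) 1) (by simpa using ha : a ∈ ball (0 : E) 1)
      (by simpa using hz : z ∈ ball (0 : E) 1) hs.le ht hst
    simpa using this
  have hc1 : 1 < Q a z := by
    by_contra h
    push Not at h
    exact hne (eq_of_Q_le_one ha hz h)
  set c := Q a z with hc
  have h1 := (Q_le_iff ha ha (c := 1)).mp (Q_self ha).le
  have h2 := (Q_le_iff ha hz (c := c)).mp hc.ge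
  rw [Q_lt_iff ha hw, norm_one_sub_inner_combo hst, norm_combo_sq hst]
  have h3 := one_sub_sq_pos ha
  have h4 : 0 ≤ s * t * ‖(inner ℂ a a : ℂ) - inner ℂ a z‖ ^ 2 := by positivity
  have h5 : 0 ≤ c * (1 - ‖a‖ ^ 2) * (s * t * ‖a - z‖ ^ 2) := by positivity
  have h6 := mul_le_mul_of_nonneg_left h1 hs.le
  have h7 := mul_le_mul_of_nonneg_left h2 ht
  have h9 : 1 * ((1 - ‖a‖ ^ 2) * (1 - ‖a‖ ^ 2)) < c * ((1 - ‖a‖ ^ 2) * (1 - ‖a‖ ^ 2)) :=
    mul_lt_mul_of_pos_right hc1 (mul_pos h3 h3)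
  have h10 := mul_lt_mul_of_pos_left h9 hs
  have ht' : t = 1 - s := by linarith
  have h8 : c * ((1 - ‖a‖ ^ 2) * (1 - (s * ‖a‖ ^ 2 + t * ‖z‖ ^ 2 - s * t * ‖a - z‖ ^ 2)))
      = s * (c * ((1 - ‖a‖ ^ 2) * (1 - ‖a‖ ^ 2))) + t * (c * ((1 - ‖a‖ ^ 2) * (1 - ‖z‖ ^ 2)))
        + c * (1 - ‖a‖ ^ 2) * (s * t * ‖a - z‖ ^ 2) := by
    rw [ht']; ring
  rw [h8]
  linarith

/-- a holomorphic map of the ball into a smaller ball is a strict contraction. -/
lemma Q_strict {g : E → E} (hg : DifferentiableOn ℂ g (ball (0 : E) 1)) {s : ℝ} (hs : s < 1)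
    (hgs : ∀ w : E, ‖w‖ < 1 → ‖g w‖ ≤ s) {u v : E} (hu : ‖u‖ < 1) (hv : ‖v‖ < 1) (huv : u ≠ v) :
    Q (g u) (g v) < Q u v := by
  have h1uv : 1 < Q u v := by
    by_contra h
    push Not at h
    exact huv (eq_of_Q_le_one hu hv h)
  have hs0 : 0 ≤ s := (norm_nonneg _).trans (hgs u hu)
  have hgu : ‖g u‖ < 1 := lt_of_le_of_lt (hgs u hu) hs
  have hgv : ‖g v‖ < 1 := lt_of_le_of_lt (hgs v hv) hs
  set δ := (1 - s) / 4 with hδ
  have hδ0 : 0 < δ := by rw [hδ]; linarith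
  set h : E → E := fun w => g u + ((1 + δ : ℝ) : ℂ) • (g w - g u) with hh
  have hd : DifferentiableOn ℂ h (ball (0 : E) 1) := by
    rw [hh]
    exact (differentiableOn_const _).add ((hg.sub (differentiableOn_const _)).const_smul _)
  have hm : MapsTo h (ball (0 : E) 1) (ball (0 : E) 1) := by
    intro w hw
    have hw' : ‖w‖ < 1 := by simpa using hw
    have h1 : h w = g w + ((δ : ℝ) : ℂ) • (g w - g u) := by
      rw [hh]
      simp only [Complex.ofReal_add, Complex.ofReal_one, add_smul, one_smul]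
      abel
    have h2 : ‖h w‖ ≤ s + δ * (s + s) := by
      rw [h1]
      refine (norm_add_le _ _).trans (add_le_add (hgs w hw') ?_)
      rw [norm_smul, Complex.norm_real, Real.norm_eq_abs, abs_of_pos hδ0]
      apply mul_le_mul_of_nonneg_left _ hδ0.le
      exact (norm_sub_le _ _).trans (add_le_add (hgs w hw') (hgs u hu))
    have h3 : s + δ * (s + s) < 1 := by
      rw [hδ]; nlinarith
    simpa using lt_of_le_of_lt h2 h3
  have key := Q_map_le hd hm hu hv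
  have hu0 : h u = g u := by rw [hh]; simp
  rw [hu0] at key
  by_cases hc : g u = h v
  · have h4 : g v = g u := by
      have h5 : ((1 + δ : ℝ) : ℂ) • (g v - g u) = 0 := by
        have : g u = g u + ((1 + δ : ℝ) : ℂ) • (g v - g u) := hc
        exact (left_eq_add).mp this
      rcases smul_eq_zero.mp h5 with h6 | h6
      · exfalso
        have : (1 + δ : ℝ) = 0 := by exact_mod_cast h6
        linarith
      · exact sub_eq_zero.mp h6
    rw [h4, Q_self hgu]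
    exact h1uv
  · have hhv : ‖h v‖ < 1 := by
      simpa using hm (by simpa using hv : v ∈ ball (0 : E) 1)
    have h1δ : (1 + δ) ≠ 0 := by positivity
    have h5 : (δ / (1 + δ)) • g u + (1 / (1 + δ)) • h v = g v := by
      have h7 : h v = g u + (1 + δ) • (g v - g u) := by
        rw [hh]
        simp only [Complex.coe_smul]
      rw [h7, smul_add, smul_smul, smul_sub]
      have h8 : 1 / (1 + δ) * (1 + δ) = 1 := by field_simp
      rw [h8, one_smul, one_smul, ← add_assoc, ← add_smul]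
      have h9 : δ / (1 + δ) + 1 / (1 + δ) = 1 := by field_simp; ring
      rw [h9, one_smul]
      abel
    have h6 := Q_seg_lt hgu hhv hc (s := δ / (1 + δ)) (t := 1 / (1 + δ)) (by positivity)
      (by positivity) (by field_simp; ring)
    rw [h5] at h6
    exact lt_of_lt_of_le h6 key

/-- Edelstein. -/
lemma exists_fixed_of_strict {K : Set E} (hK : IsCompact K) (hne : K.Nonempty)
    (hKb : ∀ z ∈ K, ‖z‖ < 1) {g : E → E} (hg : ContinuousOn g K) (hm : MapsTo g K K)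
    (hs : ∀ u ∈ K, ∀ v ∈ K, u ≠ v → Q (g u) (g v) < Q u v) : ∃ x ∈ K, g x = x := by
  have hc : ContinuousOn (fun x => Q x (g x)) K := by
    intro x hx
    exact tendsto_Q (hKb x hx) (hKb _ (hm hx)) (tendsto_id.mono_left nhdsWithin_le_nhds) (hg x hx)
  obtain ⟨x, hx, hmin⟩ := hK.exists_isMinOn hne hc
  refine ⟨x, hx, ?_⟩
  by_contra hcon
  have h1 := hs x hx (g x) (hm hx) (fun h => hcon h.symm)
  have h2 : Q x (g x) ≤ Q (g x) (g (g x)) := hmin (hm hx)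
  linarith

/-- A holomorphic self-map of the ball leaving invariant a compact convex subset of the (open)
ball has a fixed point in it. -/
theorem exists_fixed_of_convex {K : Set E} (hK : IsCompact K) (hne : K.Nonempty)
    (hKb : ∀ z ∈ K, ‖z‖ < 1) (hconv : Convex ℝ K) {f : E → E}
    (hf : DifferentiableOn ℂ f (ball (0 : E) 1))
    (hm : MapsTo f (ball (0 : E) 1) (ball (0 : E) 1)) (hKf : MapsTo f K K) :
    ∃ x ∈ K, f x = x := by
  obtain ⟨c, hc⟩ := hne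
  have hc1 := hKb c hc
  have hKb' : K ⊆ ball (0 : E) 1 := fun z hz => by simpa using hKb z hz
  set t : ℕ → ℝ := fun n => 1 - 1 / ((n : ℝ) + 1) with ht
  have ht0 : ∀ n, 0 ≤ t n := by
    intro n
    rw [ht]
    have : 1 / ((n : ℝ) + 1) ≤ 1 := by
      rw [div_le_one (by positivity)]
      linarith [(Nat.cast_nonneg n : (0 : ℝ) ≤ n)]
    simp only
    linarith
  have ht1 : ∀ n, 0 < 1 - t n := by
    intro n
    rw [ht]
    have : 0 < 1 / ((n : ℝ) + 1) := by positivity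
    simp only
    linarith
  have hex : ∀ n, ∃ x ∈ K, ((t n : ℝ) : ℂ) • f x + ((1 - t n : ℝ) : ℂ) • c = x := by
    intro n
    have hd : DifferentiableOn ℂ (fun x => ((t n : ℝ) : ℂ) • f x + ((1 - t n : ℝ) : ℂ) • c)
        (ball (0 : E) 1) := (hf.const_smul _).add (differentiableOn_const _)
    apply exists_fixed_of_strict hK ⟨c, hc⟩ hKb (hd.continuousOn.mono hKb')
    · intro x hx
      have := hconv (hKf hx) hc (ht0 n) (ht1 n).le (by ring)
      simpa only [Complex.coe_smul] using this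
    · intro u hu v hv huv
      apply Q_strict hd (s := t n + (1 - t n) * ‖c‖) _ _ (hKb u hu) (hKb v hv) huv
      · nlinarith [ht1 n]
      · intro w hw
        have hfw : ‖f w‖ < 1 := by simpa using hm (by simpa using hw : w ∈ ball (0 : E) 1)
        refine (norm_add_le _ _).trans ?_
        rw [norm_smul, norm_smul, Complex.norm_real, Complex.norm_real, Real.norm_eq_abs,
          Real.norm_eq_abs, abs_of_nonneg (ht0 n), abs_of_pos (ht1 n)]
        have := mul_le_mul_of_nonneg_left hfw.le (ht0 n)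
        linarith
  choose x hxK hx using hex
  obtain ⟨y, hyK, φ, hφ, hlim⟩ := hK.tendsto_subseq hxK
  refine ⟨y, hyK, ?_⟩
  have hy1 := hKb y hyK
  have hfc : ContinuousAt f y :=
    hf.continuousOn.continuousAt (isOpen_ball.mem_nhds (by simpa using hy1))
  have h1 : Tendsto (fun n => f (x (φ n))) atTop (𝓝 (f y)) := hfc.tendsto.comp hlim
  have h2 : Tendsto t atTop (𝓝 1) := by
    have : Tendsto (fun n : ℕ => 1 / ((n : ℝ) + 1)) atTop (𝓝 0) := tendsto_one_div_add_atTop_nhds_zero_nat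
    have h3 := (tendsto_const_nhds (x := (1 : ℝ))).sub this
    simpa [ht] using h3
  have h3 : Tendsto (fun n => ((t (φ n) : ℝ) : ℂ)) atTop (𝓝 (1 : ℂ)) := by
    have := (Complex.continuous_ofReal.tendsto (1 : ℝ)).comp (h2.comp hφ.tendsto_atTop)
    simpa [Function.comp_def] using this
  have h4 : Tendsto (fun n => ((1 - t (φ n) : ℝ) : ℂ)) atTop (𝓝 (0 : ℂ)) := by
    have := (tendsto_const_nhds (x := (1 : ℂ))).sub h3
    simpa using this
  have h5 : Tendsto (fun n => ((t (φ n) : ℝ) : ℂ) • f (x (φ n)) + ((1 - t (φ n) : ℝ) : ℂ) • c)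
      atTop (𝓝 ((1 : ℂ) • f y + (0 : ℂ) • c)) :=
    (h3.smul h1).add (h4.smul tendsto_const_nhds)
  have h6 : Tendsto (fun n => x (φ n)) atTop (𝓝 ((1 : ℂ) • f y + (0 : ℂ) • c)) := by
    refine h5.congr (fun n => hx (φ n))
  have h7 := tendsto_nhds_unique hlim h6
  simpa using h7.symm

end Pool.Agent.Helper1.DW
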