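import Mathlib

/-!
# Schwarz–Pick for the unit ball of a complex inner product space
-/

set_option autoImplicit false
open Metric Set Filter Topology
open scoped ComplexInnerProductSpace

namespace Pool.Agent.Helper1.DW

variable {E : Type*} [NormedAddCommGroup E] [InnerProductSpace ℂ E]

/-- `cosh²` of the Bergman distance in the unit ball. -/
noncomputable def Q (a z : E) : ℝ := ‖1 - inner ℂ a z‖ ^ 2 / ((1 - ‖a‖ ^ 2) * (1 - ‖z‖ ^ 2))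

/-- the Möbius involution exchanging `0` and `a`. -/
noncomputable def moeb (a z : E) : E :=
  (1 - inner ℂ a z)⁻¹ • ((1 - inner ℂ a z / (1 + (Real.sqrt (1 - ‖a‖ ^ 2) : ℂ))) • a
    - (Real.sqrt (1 - ‖a‖ ^ 2) : ℂ) • z)

lemma one_sub_inner_ne {a z : E} (ha : ‖a‖ < 1) (hz : ‖z‖ < 1) : (1 : ℂ) - inner ℂ a z ≠ 0 := by
  intro h
  have h1 : inner ℂ a z = (1 : ℂ) := (sub_eq_zero.mp h).symm
  have h2 := norm_inner_le_norm (𝕜 := ℂ) a z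
  rw [h1, norm_one] at h2
  have : ‖a‖ * ‖z‖ < 1 := by
    nlinarith [norm_nonneg a, norm_nonneg z]
  linarith

lemma norm_one_sub_inner_pos {a z : E} (ha : ‖a‖ < 1) (hz : ‖z‖ < 1) :
    0 < ‖(1 : ℂ) - inner ℂ a z‖ := norm_pos_iff.mpr (one_sub_inner_ne ha hz)

omit [InnerProductSpace ℂ E] in
lemma one_sub_sq_pos {a : E} (ha : ‖a‖ < 1) : 0 < 1 - ‖a‖ ^ 2 := by
  nlinarith [norm_nonneg a]

/-- The key identity `|N|² = |1-λ|² - (1-|a|²)(1-|z|²)`. -/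
lemma key_identity {a z : E} (ha : ‖a‖ < 1) :
    ‖(1 - inner ℂ a z / (1 + (Real.sqrt (1 - ‖a‖ ^ 2) : ℂ))) • a
      - (Real.sqrt (1 - ‖a‖ ^ 2) : ℂ) • z‖ ^ 2
      = ‖(1 : ℂ) - inner ℂ a z‖ ^ 2 - (1 - ‖a‖ ^ 2) * (1 - ‖z‖ ^ 2) := by
  set s := Real.sqrt (1 - ‖a‖ ^ 2) with hs
  have hs0 : 0 ≤ s := Real.sqrt_nonneg _
  have hs2 : s ^ 2 = 1 - ‖a‖ ^ 2 := Real.sq_sqrt (one_sub_sq_pos ha).le
  set l := (inner ℂ a z : ℂ) with hl
  have h1s : (1 + s) ≠ 0 := by positivity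
  set c := (1 : ℂ) - l / (1 + (s : ℂ)) with hcdef
  have hcast : (1 : ℂ) + (s : ℂ) = ((1 + s : ℝ) : ℂ) := by push_cast; ring
  have hcre : c.re = 1 - l.re / (1 + s) := by
    rw [hcdef, hcast, Complex.sub_re, Complex.div_ofReal_re, Complex.one_re]
  have hcim : c.im = -(l.im / (1 + s)) := by
    rw [hcdef, hcast, Complex.sub_im, Complex.div_ofReal_im, Complex.one_im]; ring
  have e1 : ‖c • a - (s : ℂ) • z‖ ^ 2 = ‖c • a‖ ^ 2 - 2 * RCLike.re (inner ℂ (c • a) ((s : ℂ) • z))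
      + ‖(s : ℂ) • z‖ ^ 2 := norm_sub_sq (𝕜 := ℂ) _ _
  rw [e1, norm_smul, norm_smul, inner_smul_left, inner_smul_right, ← hl, mul_pow, mul_pow]
  have e2 : ‖c‖ ^ 2 = c.re ^ 2 + c.im ^ 2 := by
    rw [← Complex.normSq_eq_norm_sq, Complex.normSq_apply]; ring
  have e3 : ‖(1 : ℂ) - l‖ ^ 2 = (1 - l.re) ^ 2 + l.im ^ 2 := by
    rw [← Complex.normSq_eq_norm_sq, Complex.normSq_apply]; simp; ring
  have e4 : ‖(s : ℂ)‖ ^ 2 = s ^ 2 := by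
    rw [Complex.norm_real, Real.norm_eq_abs, sq_abs]
  have e5 : RCLike.re ((starRingEnd ℂ) c * ((s : ℂ) * l)) = s * (c.re * l.re + c.im * l.im) := by
    simp
    ring
  rw [e2, e3, e4, e5, hcre, hcim]
  have ha2 : ‖a‖ ^ 2 = 1 - s ^ 2 := by linarith
  rw [ha2]
  field_simp
  ring

lemma norm_moeb_sq {a z : E} (ha : ‖a‖ < 1) (hz : ‖z‖ < 1) :
    ‖moeb a z‖ ^ 2 = 1 - (Q a z)⁻¹ := by
  have h0 := norm_one_sub_inner_pos ha hz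
  have h1 := one_sub_sq_pos ha
  have h2 := one_sub_sq_pos hz
  rw [moeb, norm_smul, mul_pow, key_identity ha, norm_inv, Q]
  field_simp

lemma moeb_zero {a : E} : moeb a 0 = a := by
  simp [moeb]

lemma Q_pos {a z : E} (ha : ‖a‖ < 1) (hz : ‖z‖ < 1) : 0 < Q a z := by
  have h0 := norm_one_sub_inner_pos ha hz
  have h1 := one_sub_sq_pos ha
  have h2 := one_sub_sq_pos hz
  unfold Q
  positivity

lemma norm_moeb_lt {a z : E} (ha : ‖a‖ < 1) (hz : ‖z‖ < 1) : ‖moeb a z‖ < 1 := by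
  have h := norm_moeb_sq ha hz
  have h2 : 0 < (Q a z)⁻¹ := inv_pos.mpr (Q_pos ha hz)
  by_contra hcon
  push Not at hcon
  nlinarith

lemma Q_self {a : E} (ha : ‖a‖ < 1) : Q a a = 1 := by
  have h1 := one_sub_sq_pos ha
  unfold Q
  have : ‖(1 : ℂ) - inner ℂ a a‖ = 1 - ‖a‖ ^ 2 := by
    rw [inner_self_eq_norm_sq_to_K]
    have : (1 : ℂ) - ((‖a‖ : ℂ)) ^ 2 = ((1 - ‖a‖ ^ 2 : ℝ) : ℂ) := by push_cast; ring
    erw [this]
    rw [Complex.norm_real, Real.norm_eq_abs, abs_of_pos h1]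
  rw [this]
  field_simp

lemma moeb_self {a : E} (ha : ‖a‖ < 1) : moeb a a = 0 := by
  have h := norm_moeb_sq ha ha
  rw [Q_self ha] at h
  have : ‖moeb a a‖ = 0 := by
    have : ‖moeb a a‖ ^ 2 = 0 := by rw [h]; norm_num
    exact pow_eq_zero_iff (two_ne_zero) |>.mp this
  exact norm_eq_zero.mp this

lemma moeb_moeb {a z : E} (ha : ‖a‖ < 1) (hz : ‖z‖ < 1) : moeb a (moeb a z) = z := by
  have hs2 : (Real.sqrt (1 - ‖a‖ ^ 2)) ^ 2 = 1 - ‖a‖ ^ 2 := Real.sq_sqrt (one_sub_sq_pos ha).le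
  have hspos : 0 < Real.sqrt (1 - ‖a‖ ^ 2) := Real.sqrt_pos.mpr (one_sub_sq_pos ha)
  have hl := one_sub_inner_ne ha hz
  unfold moeb
  set s := Real.sqrt (1 - ‖a‖ ^ 2) with hs
  set l := (inner ℂ a z : ℂ) with hl'
  have h1s : ((1 : ℂ) + (s : ℂ)) ≠ 0 := by
    have : ((1 + s : ℝ) : ℂ) ≠ 0 := by
      have : (1 + s) ≠ 0 := by positivity
      exact_mod_cast this
    simpa using this
  have hsc : (s : ℂ) ≠ 0 := by exact_mod_cast hspos.ne'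
  have hinn : inner ℂ a ((1 - l)⁻¹ • ((1 - l / (1 + (s : ℂ))) • a - (s : ℂ) • z))
      = (1 - l)⁻¹ * ((1 - l / (1 + (s : ℂ))) * (1 - (s : ℂ) ^ 2) - s * l) := by
    rw [inner_smul_right, inner_sub_right, inner_smul_right, inner_smul_right, ← hl']
    have : inner ℂ a a = (1 - (s : ℂ) ^ 2 : ℂ) := by
      rw [inner_self_eq_norm_sq_to_K]
      have h3 : ((‖a‖ ^ 2 : ℝ) : ℂ) = ((1 - s ^ 2 : ℝ) : ℂ) := by
        congr 1; linarith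
      push_cast at h3
      exact h3
    rw [this]
  have h2 : (1 - l)⁻¹ * ((1 - l / (1 + (s : ℂ))) * (1 - (s : ℂ) ^ 2) - s * l)
      = 1 - (s : ℂ) ^ 2 / (1 - l) := by
    field_simp
    ring
  rw [hinn, h2]
  have h3 : (1 : ℂ) - (1 - (s : ℂ) ^ 2 / (1 - l)) = (s : ℂ) ^ 2 / (1 - l) := by ring
  rw [h3]
  have h4 : ((s : ℂ) ^ 2 / (1 - l))⁻¹ = (1 - l) / (s : ℂ) ^ 2 := by
    rw [inv_div]
  rw [h4]
  have h5 : (1 - l) / (s : ℂ) ^ 2 * (1 - (1 - (s : ℂ) ^ 2 / (1 - l)) / (1 + (s : ℂ)))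
      - (1 - l) / (s : ℂ) ^ 2 * ((s : ℂ) * ((1 - l)⁻¹ * (1 - l / (1 + (s : ℂ))))) = 0 := by
    field_simp
    ring
  have h6 : (1 - l) / (s : ℂ) ^ 2 * ((s : ℂ) * ((1 - l)⁻¹ * (s : ℂ))) = 1 := by
    field_simp
  have h7 : ((1 - l) / (s : ℂ) ^ 2) • ((1 - (1 - (s : ℂ) ^ 2 / (1 - l)) / (1 + (s : ℂ))) • a
      - (s : ℂ) • (1 - l)⁻¹ • ((1 - l / (1 + (s : ℂ))) • a - (s : ℂ) • z))
      = ((1 - l) / (s : ℂ) ^ 2 * (1 - (1 - (s : ℂ) ^ 2 / (1 - l)) / (1 + (s : ℂ)))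
      - (1 - l) / (s : ℂ) ^ 2 * ((s : ℂ) * ((1 - l)⁻¹ * (1 - l / (1 + (s : ℂ)))))) • a
      + ((1 - l) / (s : ℂ) ^ 2 * ((s : ℂ) * ((1 - l)⁻¹ * (s : ℂ)))) • z := by
    module
  rw [h7, h5, h6, zero_smul, one_smul, zero_add]

end Pool.Agent.Helper1.DW
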