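import Pool.Agent.Helper1.DW.Moebius

/-!
# Schwarz–Pick for the unit ball of a complex inner product space, II
-/

set_option autoImplicit false
open Metric Set Filter Topology

namespace Pool.Agent.Helper1.DW

variable {E : Type*} [NormedAddCommGroup E] [InnerProductSpace ℂ E]
variable {F : Type*} [NormedAddCommGroup F] [InnerProductSpace ℂ F]

lemma differentiable_inner_right (a : E) : Differentiable ℂ (fun z : E => inner ℂ a z) :=
  (innerSL ℂ a).differentiable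

lemma differentiableOn_moeb {a : E} (ha : ‖a‖ < 1) :
    DifferentiableOn ℂ (moeb a) (ball (0 : E) 1) := by
  intro z hz
  have hz' : ‖z‖ < 1 := by simpa using hz
  have h1 := one_sub_inner_ne ha hz'
  have hd := differentiable_inner_right a z
  apply DifferentiableAt.differentiableWithinAt
  unfold moeb
  apply DifferentiableAt.smul
  · exact DifferentiableAt.inv (by fun_prop) h1
  · apply DifferentiableAt.sub
    · apply DifferentiableAt.smul_const
      fun_prop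
    · exact (differentiableAt_id).const_smul _

lemma mapsTo_moeb {a : E} (ha : ‖a‖ < 1) : MapsTo (moeb a) (ball (0 : E) 1) (ball (0 : E) 1) := by
  intro z hz
  have hz' : ‖z‖ < 1 := by simpa using hz
  simpa using norm_moeb_lt ha hz'

/-- **Schwarz–Pick lemma** for the unit balls of complex inner product spaces. -/
theorem Q_map_le {f : E → F} (hf : DifferentiableOn ℂ f (ball (0 : E) 1))
    (hm : MapsTo f (ball (0 : E) 1) (ball (0 : F) 1)) {a z : E} (ha : ‖a‖ < 1) (hz : ‖z‖ < 1) :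
    Q (f a) (f z) ≤ Q a z := by
  have hfa : ‖f a‖ < 1 := by simpa using hm (by simpa using ha : a ∈ ball (0 : E) 1)
  have hfz : ‖f z‖ < 1 := by simpa using hm (by simpa using hz : z ∈ ball (0 : E) 1)
  have hz1 : ‖moeb a z‖ < 1 := norm_moeb_lt ha hz
  have hd : DifferentiableOn ℂ (fun x => moeb (f a) (f (moeb a x))) (ball (0 : E) 1) :=
    (differentiableOn_moeb hfa).comp (hf.comp (differentiableOn_moeb ha) (mapsTo_moeb ha))
      (hm.comp (mapsTo_moeb ha))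
  have hmm : MapsTo (fun x => moeb (f a) (f (moeb a x))) (ball (0 : E) 1) (closedBall (0 : F) 1) :=
    ((mapsTo_moeb hfa).comp (hm.comp (mapsTo_moeb ha))).mono_right ball_subset_closedBall
  have h0 : (fun x => moeb (f a) (f (moeb a x))) 0 = 0 := by
    simp only [moeb_zero]
    exact moeb_self hfa
  have key := Complex.norm_le_norm_of_mapsTo_ball hd hmm h0 hz1
  simp only [moeb_moeb ha hz] at key
  have k2 : ‖moeb (f a) (f z)‖ ^ 2 ≤ ‖moeb a z‖ ^ 2 :=
    pow_le_pow_left₀ (norm_nonneg _) key 2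
  rw [norm_moeb_sq hfa hfz, norm_moeb_sq ha hz] at k2
  have k3 : (Q a z)⁻¹ ≤ (Q (f a) (f z))⁻¹ := by linarith
  exact (inv_le_inv₀ (Q_pos ha hz) (Q_pos hfa hfz)).mp k3

lemma one_le_Q {a z : E} (ha : ‖a‖ < 1) (hz : ‖z‖ < 1) : 1 ≤ Q a z := by
  have h := norm_moeb_sq ha hz
  have h1 : 0 ≤ ‖moeb a z‖ ^ 2 := by positivity
  have h2 : (Q a z)⁻¹ ≤ 1 := by linarith
  exact (inv_le_one₀ (Q_pos ha hz)).mp h2

lemma eq_of_Q_le_one {a z : E} (ha : ‖a‖ < 1) (hz : ‖z‖ < 1) (h : Q a z ≤ 1) : a = z := by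
  have h1 := norm_moeb_sq ha hz
  have h2 : Q a z = 1 := le_antisymm h (one_le_Q ha hz)
  rw [h2] at h1
  have h3 : moeb a z = 0 := by
    have : ‖moeb a z‖ ^ 2 = 0 := by rw [h1]; norm_num
    exact norm_eq_zero.mp (pow_eq_zero_iff (two_ne_zero) |>.mp this)
  have h4 := moeb_moeb ha hz
  rw [h3, moeb_zero] at h4
  exact h4

lemma Q_symm (a z : E) : Q a z = Q z a := by
  unfold Q
  have : ‖(1 : ℂ) - inner ℂ a z‖ = ‖(1 : ℂ) - inner ℂ z a‖ := by
    rw [← inner_conj_symm, ← RCLike.norm_conj (K := ℂ)]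
    simp
  rw [this, mul_comm (1 - ‖a‖ ^ 2)]

/-- a point at bounded distance from a compact set stays away from the boundary. -/
lemma norm_bound_of_Q_le {a z : E} {r C : ℝ} (hr : r < 1) (har : ‖a‖ ≤ r) (hz : ‖z‖ < 1)
    (hC : Q a z ≤ C) : (1 - r) ^ 2 ≤ C * (1 - ‖z‖ ^ 2) := by
  have hr0 : 0 ≤ r := (norm_nonneg a).trans har
  have ha : ‖a‖ < 1 := lt_of_le_of_lt har hr
  have h1 := one_sub_sq_pos ha
  have h2 := one_sub_sq_pos hz
  have h3 : 1 - r ≤ ‖(1 : ℂ) - inner ℂ a z‖ := by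
    have h4 : ‖(1 : ℂ)‖ - ‖(inner ℂ a z : ℂ)‖ ≤ ‖(1 : ℂ) - inner ℂ a z‖ := norm_sub_norm_le _ _
    have h5 := norm_inner_le_norm (𝕜 := ℂ) a z
    rw [norm_one] at h4
    nlinarith [norm_nonneg a, norm_nonneg z]
  have h6 : ‖(1 : ℂ) - inner ℂ a z‖ ^ 2 ≤ C * ((1 - ‖a‖ ^ 2) * (1 - ‖z‖ ^ 2)) := by
    unfold Q at hC
    rwa [div_le_iff₀ (mul_pos h1 h2)] at hC
  have hCpos : 0 < C := lt_of_lt_of_le (Q_pos ha hz) hC
  have h7 : (1 - r) ^ 2 ≤ ‖(1 : ℂ) - inner ℂ a z‖ ^ 2 := pow_le_pow_left₀ (by linarith) h3 2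
  calc (1 - r) ^ 2 ≤ C * ((1 - ‖a‖ ^ 2) * (1 - ‖z‖ ^ 2)) := h7.trans h6
    _ ≤ C * (1 * (1 - ‖z‖ ^ 2)) := by
        apply mul_le_mul_of_nonneg_left _ hCpos.le
        apply mul_le_mul_of_nonneg_right _ h2.le
        nlinarith [norm_nonneg a]
    _ = C * (1 - ‖z‖ ^ 2) := by ring

/-- joint continuity of `Q` on the open ball. -/
lemma tendsto_Q {ι : Type*} {l : Filter ι} {u v : ι → E} {a z : E} (ha : ‖a‖ < 1) (hz : ‖z‖ < 1)
    (hu : Tendsto u l (𝓝 a)) (hv : Tendsto v l (𝓝 z)) :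
    Tendsto (fun i => Q (u i) (v i)) l (𝓝 (Q a z)) := by
  unfold Q
  apply Tendsto.div
  · exact ((tendsto_const_nhds.sub (hu.inner hv)).norm).pow 2
  · exact (tendsto_const_nhds.sub (hu.norm.pow 2)).mul (tendsto_const_nhds.sub (hv.norm.pow 2))
  · exact (mul_pos (one_sub_sq_pos ha) (one_sub_sq_pos hz)).ne'

lemma continuousOn_Q {a : E} (ha : ‖a‖ < 1) : ContinuousOn (fun z => Q a z) (ball (0 : E) 1) := by
  intro z hz
  have hz' : ‖z‖ < 1 := by simpa using hz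
  exact tendsto_Q ha hz' tendsto_const_nhds (tendsto_id.mono_left nhdsWithin_le_nhds)

end Pool.Agent.Helper1.DW
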