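import Pool.Agent.Helper1.DW.Fixed

/-!
# Wolff's lemma, Calka's theorem and the Denjoy–Wolff theorem for the unit ball
-/

set_option autoImplicit false
open Metric Set Filter Topology

namespace Pool.Agent.Helper1.DW

variable {E : Type*} [NormedAddCommGroup E] [InnerProductSpace ℂ E]

/-- **Wolff's lemma** for the unit ball. -/
theorem wolff [ProperSpace E] {f : E → E} (hf : DifferentiableOn ℂ f (ball (0 : E) 1))
    (hm : MapsTo f (ball (0 : E) 1) (ball (0 : E) 1)) (hfix : ∀ z : E, ‖z‖ < 1 → f z ≠ z) :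
    ∃ p : E, ‖p‖ = 1 ∧ ∀ z : E, ‖z‖ < 1 →
      ‖(1 : ℂ) - inner ℂ p (f z)‖ ^ 2 / (1 - ‖f z‖ ^ 2)
        ≤ ‖(1 : ℂ) - inner ℂ p z‖ ^ 2 / (1 - ‖z‖ ^ 2) := by
  set t : ℕ → ℝ := fun n => 1 - 1 / ((n : ℝ) + 1) with ht
  have ht0 : ∀ n, 0 ≤ t n := by
    intro n
    rw [ht]
    have : 1 / ((n : ℝ) + 1) ≤ 1 := by
      rw [div_le_one (by positivity)]
      linarith [(Nat.cast_nonneg n : (0 : ℝ) ≤ n)]
    simp only
    linarith
  have ht1 : ∀ n, 0 < 1 - t n := by
    intro n
    rw [ht]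
    have : 0 < 1 / ((n : ℝ) + 1) := by positivity
    simp only
    linarith
  have hnorm : ∀ n, ∀ w : E, ‖w‖ < 1 → ‖((t n : ℝ) : ℂ) • f w‖ ≤ t n := by
    intro n w hw
    have hfw : ‖f w‖ < 1 := by simpa using hm (by simpa using hw : w ∈ ball (0 : E) 1)
    rw [norm_smul, Complex.norm_real, Real.norm_eq_abs, abs_of_nonneg (ht0 n)]
    nlinarith [ht0 n]
  have hd : ∀ n, DifferentiableOn ℂ (fun x => ((t n : ℝ) : ℂ) • f x) (ball (0 : E) 1) :=
    fun n => hf.const_smul _
  have hex : ∀ n, ∃ x : E, ‖x‖ ≤ t n ∧ ((t n : ℝ) : ℂ) • f x = x := by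
    intro n
    have hsub : ∀ z ∈ closedBall (0 : E) (t n), ‖z‖ < 1 := by
      intro z hz
      have : ‖z‖ ≤ t n := by simpa using hz
      linarith [ht1 n]
    obtain ⟨x, hx, hfx⟩ := exists_fixed_of_strict (K := closedBall (0 : E) (t n))
      (g := fun x => ((t n : ℝ) : ℂ) • f x) (isCompact_closedBall _ _)
      ⟨0, by simpa using ht0 n⟩ hsub
      ((hd n).continuousOn.mono (fun z hz => by simpa using hsub z hz))
      (fun z hz => by simpa using hnorm n z (hsub z hz))
      (fun u hu v hv huv => Q_strict (hd n) (s := t n) (by linarith [ht1 n]) (hnorm n)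
        (hsub u hu) (hsub v hv) huv)
    exact ⟨x, by simpa using hx, hfx⟩
  choose x hxn hx using hex
  have hx1 : ∀ n, ‖x n‖ < 1 := fun n => lt_of_le_of_lt (hxn n) (by linarith [ht1 n])
  have hxc : ∀ n, x n ∈ closedBall (0 : E) 1 := fun n => by simpa using (hx1 n).le
  obtain ⟨p, hpc, φ, hφ, hlim⟩ := (isCompact_closedBall (0 : E) 1).tendsto_subseq hxc
  have hp1 : ‖p‖ ≤ 1 := by simpa using hpc
  have h2 : Tendsto t atTop (𝓝 1) := by
    have : Tendsto (fun n : ℕ => 1 / ((n : ℝ) + 1)) atTop (𝓝 0) :=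
      tendsto_one_div_add_atTop_nhds_zero_nat
    have h3 := (tendsto_const_nhds (x := (1 : ℝ))).sub this
    simpa [ht] using h3
  have h3 : Tendsto (fun n => ((t (φ n) : ℝ) : ℂ)) atTop (𝓝 (1 : ℂ)) := by
    have := (Complex.continuous_ofReal.tendsto (1 : ℝ)).comp (h2.comp hφ.tendsto_atTop)
    simpa [Function.comp_def] using this
  have hpn : ‖p‖ = 1 := by
    by_contra hne
    have hlt : ‖p‖ < 1 := lt_of_le_of_ne hp1 hne
    have hfc : ContinuousAt f p :=
      hf.continuousOn.continuousAt (isOpen_ball.mem_nhds (by simpa using hlt))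
    have h1 : Tendsto (fun n => f (x (φ n))) atTop (𝓝 (f p)) := hfc.tendsto.comp hlim
    have h5 := h3.smul h1
    have h6 : Tendsto (fun n => x (φ n)) atTop (𝓝 ((1 : ℂ) • f p)) :=
      h5.congr (fun n => hx (φ n))
    have h7 := tendsto_nhds_unique hlim h6
    exact hfix p hlt (by simpa using h7.symm)
  refine ⟨p, hpn, ?_⟩
  intro z hz
  have hfz : ‖f z‖ < 1 := by simpa using hm (by simpa using hz : z ∈ ball (0 : E) 1)
  have hmn : ∀ n, MapsTo (fun x => ((t n : ℝ) : ℂ) • f x) (ball (0 : E) 1) (ball (0 : E) 1) := by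
    intro n w hw
    have := hnorm n w (by simpa using hw)
    have h4 := ht1 n
    simpa using lt_of_le_of_lt this (by linarith : t n < 1)
  have hineq : ∀ n, ‖(1 : ℂ) - inner ℂ (x n) (((t n : ℝ) : ℂ) • f z)‖ ^ 2
        / (1 - ‖((t n : ℝ) : ℂ) • f z‖ ^ 2)
      ≤ ‖(1 : ℂ) - inner ℂ (x n) z‖ ^ 2 / (1 - ‖z‖ ^ 2) := by
    intro n
    have key := Q_map_le (hd n) (hmn n) (hx1 n) hz
    simp only [hx n] at key
    unfold Q at key
    have hxp := one_sub_sq_pos (hx1 n)
    rw [mul_comm (1 - ‖x n‖ ^ 2), mul_comm (1 - ‖x n‖ ^ 2), ← div_div, ← div_div,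
      div_le_div_iff_of_pos_right hxp] at key
    exact key
  have hL : Tendsto (fun n => ‖(1 : ℂ) - inner ℂ (x (φ n)) (((t (φ n) : ℝ) : ℂ) • f z)‖ ^ 2
        / (1 - ‖((t (φ n) : ℝ) : ℂ) • f z‖ ^ 2)) atTop
      (𝓝 (‖(1 : ℂ) - inner ℂ p ((1 : ℂ) • f z)‖ ^ 2 / (1 - ‖(1 : ℂ) • f z‖ ^ 2))) := by
    have h4 : Tendsto (fun n => ((t (φ n) : ℝ) : ℂ) • f z) atTop (𝓝 ((1 : ℂ) • f z)) :=
      h3.smul tendsto_const_nhds
    apply Tendsto.div
    · exact ((tendsto_const_nhds.sub (hlim.inner h4)).norm).pow 2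
    · exact tendsto_const_nhds.sub (h4.norm.pow 2)
    · rw [one_smul]; exact (one_sub_sq_pos hfz).ne'
  have hR : Tendsto (fun n => ‖(1 : ℂ) - inner ℂ (x (φ n)) z‖ ^ 2 / (1 - ‖z‖ ^ 2)) atTop
      (𝓝 (‖(1 : ℂ) - inner ℂ p z‖ ^ 2 / (1 - ‖z‖ ^ 2))) := by
    apply Tendsto.div_const
    exact ((tendsto_const_nhds.sub (hlim.inner tendsto_const_nhds)).norm).pow 2
  have := le_of_tendsto_of_tendsto' hL hR (fun n => hineq (φ n))
  simpa using this

omit [InnerProductSpace ℂ E] in
lemma iterate_norm_lt {f : E → E} (hm : MapsTo f (ball (0 : E) 1) (ball (0 : E) 1)) {y : E}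
    (hy : ‖y‖ < 1) (n : ℕ) : ‖f^[n] y‖ < 1 := by
  simpa using hm.iterate n (by simpa using hy : y ∈ ball (0 : E) 1)

lemma iterate_differentiableOn {f : E → E} (hf : DifferentiableOn ℂ f (ball (0 : E) 1))
    (hm : MapsTo f (ball (0 : E) 1) (ball (0 : E) 1)) (n : ℕ) :
    DifferentiableOn ℂ f^[n] (ball (0 : E) 1) := by
  induction n with
  | zero => exact differentiableOn_id
  | succ n ih =>
    rw [Function.iterate_succ]
    exact ih.comp hf hm

lemma Q_iterate_le {f : E → E} (hf : DifferentiableOn ℂ f (ball (0 : E) 1))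
    (hm : MapsTo f (ball (0 : E) 1) (ball (0 : E) 1)) (n : ℕ) {a z : E} (ha : ‖a‖ < 1)
    (hz : ‖z‖ < 1) : Q (f^[n] a) (f^[n] z) ≤ Q a z :=
  Q_map_le (iterate_differentiableOn hf hm n) (hm.iterate n) ha hz

/-- A limit point of an orbit is recurrent. -/
lemma exists_recurrence {f : E → E} (hf : DifferentiableOn ℂ f (ball (0 : E) 1))
    (hm : MapsTo f (ball (0 : E) 1) (ball (0 : E) 1)) {x y : E} (hx : ‖x‖ < 1) (hy : ‖y‖ < 1)
    {φ : ℕ → ℕ} (hφ : StrictMono φ) (hlim : Tendsto (fun k => f^[φ k] x) atTop (𝓝 y)) :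
    ∃ p : ℕ → ℕ, (∀ k, k < p k) ∧ Tendsto (fun k => f^[p k] y) atTop (𝓝 y) := by
  have hadd : ∀ k m, φ k + m ≤ φ (k + m) := by
    intro k m
    induction m with
    | zero => simp
    | succ m ih =>
      have : φ (k + m) < φ (k + (m + 1)) := hφ (by omega)
      omega
  refine ⟨fun k => φ (2 * k + 1) - φ k, ?_, ?_⟩
  · intro k
    have := hadd k (k + 1)
    have h2 : k + (k + 1) = 2 * k + 1 := by ring
    rw [h2] at this
    show k < φ (2 * k + 1) - φ k
    omega
  · have h1 : ∀ k, f^[φ (2 * k + 1)] x = f^[φ (2 * k + 1) - φ k] (f^[φ k] x) := by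
      intro k
      rw [← Function.iterate_add_apply]
      congr 1
      have := hadd k (k + 1)
      have h2 : k + (k + 1) = 2 * k + 1 := by ring
      rw [h2] at this
      omega
    have h2 : Tendsto (fun k => Q y (f^[φ k] x) - 1) atTop (𝓝 0) := by
      have := (tendsto_Q hy hy (tendsto_const_nhds) hlim).sub_const 1
      rw [Q_self hy] at this
      simpa using this
    have h3 : Tendsto (fun k => ‖f^[φ (2 * k + 1)] x - f^[φ (2 * k + 1) - φ k] y‖ ^ 2) atTop
        (𝓝 0) := by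
      apply squeeze_zero (fun _ => by positivity) _ h2
      intro k
      refine (norm_sub_sq_le (iterate_norm_lt hm hy _) (iterate_norm_lt hm hx _)).trans ?_
      rw [h1 k]
      have := Q_iterate_le hf hm (φ (2 * k + 1) - φ k) hy (iterate_norm_lt hm hx (φ k))
      linarith
    have h4 : Tendsto (fun k => ‖f^[φ (2 * k + 1)] x - f^[φ (2 * k + 1) - φ k] y‖) atTop
        (𝓝 0) := by
      have := h3.sqrt
      simpa [Real.sqrt_sq (norm_nonneg _)] using this
    have h5 : Tendsto (fun k => f^[φ (2 * k + 1)] x - f^[φ (2 * k + 1) - φ k] y) atTop (𝓝 0) :=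
      tendsto_zero_iff_norm_tendsto_zero.mpr h4
    have h6 : Tendsto (fun k => f^[φ (2 * k + 1)] x) atTop (𝓝 y) := by
      apply hlim.comp
      apply tendsto_atTop_mono (f := fun k => k) (fun k => by omega) tendsto_id
    have h7 := h6.sub h5
    simpa using h7

/-- on the orbit of a recurrent point `f` is an isometry. -/
lemma Q_orbit_eq {f : E → E} (hf : DifferentiableOn ℂ f (ball (0 : E) 1))
    (hm : MapsTo f (ball (0 : E) 1) (ball (0 : E) 1)) {y : E} (hy : ‖y‖ < 1)
    {p : ℕ → ℕ} (hp : ∀ k, k < p k) (hlim : Tendsto (fun k => f^[p k] y) atTop (𝓝 y)) (i j n : ℕ) :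
    Q (f^[i + n] y) (f^[j + n] y) = Q (f^[i] y) (f^[j] y) := by
  have hcont : ∀ i, Tendsto (fun k => f^[i + p k] y) atTop (𝓝 (f^[i] y)) := by
    intro i
    have hc : ContinuousAt f^[i] y :=
      (iterate_differentiableOn hf hm i).continuousOn.continuousAt
        (isOpen_ball.mem_nhds (by simpa using hy))
    have := hc.tendsto.comp hlim
    refine this.congr (fun k => ?_)
    rw [Function.comp, ← Function.iterate_add_apply]
  have h1 : ∀ i j, Q (f^[i + 1] y) (f^[j + 1] y) = Q (f^[i] y) (f^[j] y) := by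
    intro i j
    apply le_antisymm
    · have := Q_iterate_le hf hm 1 (iterate_norm_lt hm hy i) (iterate_norm_lt hm hy j)
      rw [← Function.iterate_add_apply, ← Function.iterate_add_apply, add_comm 1 i,
        add_comm 1 j] at this
      exact this
    · have h2 := tendsto_Q (iterate_norm_lt hm hy i) (iterate_norm_lt hm hy j) (hcont i) (hcont j)
      refine le_of_tendsto' h2 (fun k => ?_)
      have hk := hp k
      have := Q_iterate_le hf hm (p k - 1) (iterate_norm_lt hm hy (i + 1))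
        (iterate_norm_lt hm hy (j + 1))
      rw [← Function.iterate_add_apply, ← Function.iterate_add_apply] at this
      have e1 : p k - 1 + (i + 1) = i + p k := by omega
      have e2 : p k - 1 + (j + 1) = j + p k := by omega
      rwa [e1, e2] at this
  induction n with
  | zero => rfl
  | succ n ih => rw [← ih, ← h1 (i + n) (j + n)]; rfl

end Pool.Agent.Helper1.DW
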